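import Pool.Agent.H427R2.WX.St

set_option autoImplicit false

namespace Pool.Agent.H427R2.WX

open Real

theorem X2_id (A B : ℝ) : sin A ^ 2 + sin B ^ 2 + 2 * sin A * sin B * cos (A + B) =
    sin (A + B) ^ 2 := by
  rw [sin_add, cos_add]
  have h1 := sin_sq_add_cos_sq A
  have h2 := sin_sq_add_cos_sq B
  have e1 : cos A ^ 2 = 1 - sin A ^ 2 := by linarith
  have e2 : cos B ^ 2 = 1 - sin B ^ 2 := by linarith
  have : (sin A * cos B + cos A * sin B) ^ 2 =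
      sin A ^ 2 * cos B ^ 2 + cos A ^ 2 * sin B ^ 2 + 2 * sin A * cos B * cos A * sin B := by ring
  rw [this, e1, e2]
  ring

/-- the point at the angle `t` -/
noncomputable def X2_x (Θ t p q : ℝ) : ℝ := (sin (Θ - t) * p + sin t * q) / sin Θ

theorem X2_step (Θ t h p q : ℝ) : X2_x Θ (t + h) p q - X2_x Θ t p q =
    2 * sin (h / 2) * ((-(cos (Θ - (t + h / 2))) * p + cos (t + h / 2) * q) / sin Θ) := by
  have h1 : sin (t + h) - sin t = 2 * sin (h / 2) * cos (t + h / 2) := by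
    rw [sin_sub_sin]
    congr 2 <;> ring_nf
  have h2 : sin (Θ - (t + h)) - sin (Θ - t) = -(2 * sin (h / 2) * cos (Θ - (t + h / 2))) := by
    rw [sin_sub_sin]
    have e1 : (Θ - (t + h) - (Θ - t)) / 2 = -(h / 2) := by ring
    have e2 : (Θ - (t + h) + (Θ - t)) / 2 = Θ - (t + h / 2) := by ring
    rw [e1, e2, sin_neg]
    ring
  unfold X2_x
  rw [← sub_div]
  have h3 : sin (Θ - (t + h)) * p + sin (t + h) * q - (sin (Θ - t) * p + sin t * q) =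
      (sin (Θ - (t + h)) - sin (Θ - t)) * p + (sin (t + h) - sin t) * q := by ring
  rw [h3, h1, h2]
  ring

theorem X2_norm (Θ t ρ : ℝ) (hs : sin Θ ≠ 0) (p q : Fin 3 → ℝ)
    (hp : ∑ i, p i ^ 2 = ρ) (hq : ∑ i, q i ^ 2 = ρ) (hpq : ∑ i, p i * q i = ρ * cos Θ) :
    ∑ i, X2_x Θ t (p i) (q i) ^ 2 = ρ := by
  have h1 : ∑ i, X2_x Θ t (p i) (q i) ^ 2 = (sin (Θ - t) ^ 2 * ∑ i, p i ^ 2 +
      sin t ^ 2 * ∑ i, q i ^ 2 + 2 * sin (Θ - t) * sin t * ∑ i, p i * q i) / sin Θ ^ 2 := by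
    simp only [Fin.sum_univ_three, X2_x]
    field_simp
    ring
  rw [h1, hp, hq, hpq]
  have h2 := X2_id (Θ - t) t
  rw [sub_add_cancel] at h2
  have h3 : sin (Θ - t) ^ 2 * ρ + sin t ^ 2 * ρ + 2 * sin (Θ - t) * sin t * (ρ * cos Θ) =
      ρ * sin Θ ^ 2 := by
    rw [← h2]; ring
  rw [h3]
  field_simp

/-- one component of a step -/
theorem X2_comp (Θ t h a P Q : ℝ) (T : ℕ) (hΘ0 : 0.912 ≤ Θ) (hΘ1 : Θ ≤ 1.5708)
    (hs0 : 0.912 ≤ sin Θ) (hs1 : sin Θ ≤ 1) (ha : 14 ≤ a) (hT : (T : ℝ) ≤ a / 14)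
    (hT' : a / 28 ≤ T) (hh : h = Θ / T)
    (h1 : 0.118 * a ≤ -(cos (Θ - (t + h / 2))) * P + cos (t + h / 2) * Q)
    (h2 : -(cos (Θ - (t + h / 2))) * P + cos (t + h / 2) * Q ≤ 1.01 * a) :
    1 ≤ X2_x Θ (t + h) P Q - X2_x Θ t P Q ∧ X2_x Θ (t + h) P Q - X2_x Θ t P Q ≤ 64 := by
  rw [X2_step]
  set Y := -(cos (Θ - (t + h / 2))) * P + cos (t + h / 2) * Q with hY
  have hTpos : (0 : ℝ) < T := by
    have : (0 : ℝ) < a / 28 := by positivity
    linarith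
  have hT1 : (1 : ℝ) ≤ T := by
    have : 1 ≤ T := Nat.pos_of_ne_zero (by rintro rfl; simp at hTpos)
    exact_mod_cast this
  have hhpos : 0 < h := by rw [hh]; positivity
  have hhle : h ≤ 1.5708 := by
    rw [hh, div_le_iff₀ hTpos]
    nlinarith
  have hla : h * a ≤ 28 * 1.5708 := by
    rw [hh, div_mul_eq_mul_div, div_le_iff₀ hTpos]
    nlinarith
  have hlb : 14 * 0.912 ≤ h * a := by
    rw [hh, div_mul_eq_mul_div, le_div_iff₀ hTpos]
    nlinarith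
  have hsin1 : sin (h / 2) ≤ h / 2 := (sin_lt (by linarith)).le
  have hsin0 : 0.845 * (h / 2) ≤ sin (h / 2) := by
    have h3 := sin_gt_sub_cube (x := h / 2) (by linarith)
    have h4 : (h / 2) ^ 3 / 6 ≤ 0.155 * (h / 2) := by
      have h5 : (h / 2) ^ 2 ≤ 0.62 := by nlinarith
      have h6 : (h / 2) ^ 3 / 6 = (h / 2) ^ 2 / 6 * (h / 2) := by ring
      rw [h6]
      have : (h / 2) ^ 2 / 6 ≤ 0.155 := by linarith
      exact mul_le_mul_of_nonneg_right this (by linarith)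
    linarith
  have hspos : 0 < sin Θ := by linarith
  have hY0 : 0 ≤ Y := by nlinarith
  constructor
  · have e1 : Y ≤ Y / sin Θ := by
      rw [le_div_iff₀ hspos]
      nlinarith
    have e2 : 0.845 * h ≤ 2 * sin (h / 2) := by linarith
    have e3 : 0.845 * h * (0.118 * a) ≤ 2 * sin (h / 2) * (Y / sin Θ) := by
      apply mul_le_mul e2 (h1.trans e1) (by positivity) (by linarith)
    nlinarith
  · have e1 : Y / sin Θ ≤ 1.1075 * a := by
      rw [div_le_iff₀ hspos]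
      nlinarith
    have e2 : 2 * sin (h / 2) ≤ h := by linarith
    have e3 : 2 * sin (h / 2) * (Y / sin Θ) ≤ h * (1.1075 * a) :=
      mul_le_mul e2 e1 (by positivity) hhpos.le
    nlinarith

/-- the angle -/
theorem X2_angle (a b S S' : ℝ) (ha : 14 ≤ a) (hb : |b - a| ≤ a / 100) (hS : |S - a| ≤ a / 100)
    (hS' : |S' - a| ≤ a / 100) : ∃ Θ : ℝ, 0.912 ≤ Θ ∧ Θ ≤ 1.5708 ∧ Θ ≤ π ∧ 0.912 ≤ sin Θ ∧
      0.3749 ≤ cos Θ ∧ S * b / 4 - a * b / 16 + a * S' / 4 = (S ^ 2 + a ^ 2 / 8) * cos Θ := by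
  have hb1 := abs_le.1 hb
  have hS1 := abs_le.1 hS
  have hS2 := abs_le.1 hS'
  have ha0 : 0 < a := by linarith
  have f1 : 0.99 * a * (0.99 * a) ≤ S * b :=
    mul_le_mul (by linarith) (by linarith) (by positivity) (by linarith)
  have f2 : S * b ≤ 1.01 * a * (1.01 * a) :=
    mul_le_mul (by linarith) (by linarith) (by linarith) (by positivity)
  have f3 : a * (0.99 * a) ≤ a * b := mul_le_mul_of_nonneg_left (by linarith) ha0.le
  have f4 : a * b ≤ a * (1.01 * a) := mul_le_mul_of_nonneg_left (by linarith) ha0.le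
  have f5 : a * (0.99 * a) ≤ a * S' := mul_le_mul_of_nonneg_left (by linarith) ha0.le
  have f6 : a * S' ≤ a * (1.01 * a) := mul_le_mul_of_nonneg_left (by linarith) ha0.le
  have f7 : 0.99 * a * (0.99 * a) ≤ S * S :=
    mul_le_mul (by linarith) (by linarith) (by positivity) (by linarith)
  have f8 : S * S ≤ 1.01 * a * (1.01 * a) :=
    mul_le_mul (by linarith) (by linarith) (by linarith) (by positivity)
  have hρ0 : 0 < S ^ 2 + a ^ 2 / 8 := by positivity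
  have n1 : 0.3749 * (S ^ 2 + a ^ 2 / 8) ≤ S * b / 4 - a * b / 16 + a * S' / 4 := by nlinarith
  have n2 : S * b / 4 - a * b / 16 + a * S' / 4 ≤ 0.41 * (S ^ 2 + a ^ 2 / 8) := by nlinarith
  have c1 : 0.3749 ≤ (S * b / 4 - a * b / 16 + a * S' / 4) / (S ^ 2 + a ^ 2 / 8) := by
    rwa [le_div_iff₀ hρ0]
  have c2 : (S * b / 4 - a * b / 16 + a * S' / 4) / (S ^ 2 + a ^ 2 / 8) ≤ 0.41 := by
    rwa [div_le_iff₀ hρ0]
  have c3 : (S ^ 2 + a ^ 2 / 8) * ((S * b / 4 - a * b / 16 + a * S' / 4) /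
      (S ^ 2 + a ^ 2 / 8)) = S * b / 4 - a * b / 16 + a * S' / 4 := mul_div_cancel₀ _ hρ0.ne'
  generalize (S * b / 4 - a * b / 16 + a * S' / 4) / (S ^ 2 + a ^ 2 / 8) = c at c1 c2 c3
  have hcos : cos (arccos c) = c := cos_arccos (by linarith) (by linarith)
  have hsin : 0.912 ≤ sin (arccos c) := by
    rw [sin_arccos]
    apply le_sqrt_of_sq_le
    nlinarith
  have hΘpos : 0 ≤ arccos c := arccos_nonneg _
  have hΘ1 : arccos c ≤ π / 2 := arccos_le_pi_div_two.2 (by linarith)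
  have hπ := pi_lt_d4
  refine ⟨arccos c, hsin.trans (sin_le hΘpos), by linarith, by linarith [pi_pos], hsin, ?_, ?_⟩
  · rw [hcos]; exact c1
  · rw [hcos, c3]

theorem X2_lohi (a b S S' cA cB : ℝ) (i : Fin 3) (ha0 : 0 < a) (hb : |b - a| ≤ a / 100)
    (hS : |S - a| ≤ a / 100) (hS' : |S' - a| ≤ a / 100) (cA1 : 0.3749 ≤ cA) (cA2 : cA ≤ 1)
    (cB1 : 0.3749 ≤ cB) (cB2 : cB ≤ 1) :
    0.118 * a ≤ -cA * (![-S, -(a / 4), a / 4] : Fin 3 → ℝ) i +
      cB * (![-(b / 4), b / 4, S'] : Fin 3 → ℝ) i ∧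
    -cA * (![-S, -(a / 4), a / 4] : Fin 3 → ℝ) i +
      cB * (![-(b / 4), b / 4, S'] : Fin 3 → ℝ) i ≤ 1.01 * a := by
  have hb1 := abs_le.1 hb
  have hS1 := abs_le.1 hS
  have hS2 := abs_le.1 hS'
  have hb0 : 0 ≤ b := by linarith
  have hS0 : 0 ≤ S := by linarith
  have hS0' : 0 ≤ S' := by linarith
  have g1 : 0.3749 * S ≤ cA * S := mul_le_mul_of_nonneg_right cA1 hS0
  have g2 : cA * S ≤ 1 * S := mul_le_mul_of_nonneg_right cA2 hS0
  have g3 : 0.3749 * a ≤ cA * a := mul_le_mul_of_nonneg_right cA1 ha0.le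
  have g4 : cA * a ≤ 1 * a := mul_le_mul_of_nonneg_right cA2 ha0.le
  have g5 : 0.3749 * b ≤ cB * b := mul_le_mul_of_nonneg_right cB1 hb0
  have g6 : cB * b ≤ 1 * b := mul_le_mul_of_nonneg_right cB2 hb0
  have g7 : 0.3749 * S' ≤ cB * S' := mul_le_mul_of_nonneg_right cB1 hS0'
  have g8 : cB * S' ≤ 1 * S' := mul_le_mul_of_nonneg_right cB2 hS0'
  have e0 : -cA * (-S) + cB * (-(b / 4)) = cA * S - cB * b / 4 := by ring
  have e1 : -cA * (-(a / 4)) + cB * (b / 4) = cA * a / 4 + cB * b / 4 := by ring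
  have e2 : -cA * (a / 4) + cB * S' = cB * S' - cA * a / 4 := by ring
  fin_cases i
  · show 0.118 * a ≤ -cA * (-S) + cB * (-(b / 4)) ∧ -cA * (-S) + cB * (-(b / 4)) ≤ 1.01 * a
    rw [e0]
    constructor <;> linarith
  · show 0.118 * a ≤ -cA * (-(a / 4)) + cB * (b / 4) ∧
      -cA * (-(a / 4)) + cB * (b / 4) ≤ 1.01 * a
    rw [e1]
    constructor <;> linarith
  · show 0.118 * a ≤ -cA * (a / 4) + cB * S' ∧ -cA * (a / 4) + cB * S' ≤ 1.01 * a
    rw [e2]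
    constructor <;> linarith

theorem X2_floor (a : ℝ) (ha : 14 ≤ a) : ∃ T : ℕ, (1 : ℝ) ≤ T ∧ (T : ℝ) ≤ a / 14 ∧ a / 28 ≤ T := by
  have hT1 : (⌊a / 14⌋₊ : ℝ) ≤ a / 14 := Nat.floor_le (by positivity)
  have hT2 : a / 14 < ⌊a / 14⌋₊ + 1 := Nat.lt_floor_add_one _
  have hT3 : 1 ≤ ⌊a / 14⌋₊ := by
    rw [Nat.one_le_floor_iff, le_div_iff₀ (by norm_num)]
    linarith
  have hT4 : (1 : ℝ) ≤ ⌊a / 14⌋₊ := by exact_mod_cast hT3
  exact ⟨_, hT4, hT1, by linarith⟩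

theorem t_X2 : S_X2 := by
  intro a b S S' ha hb heq hS hS'
  obtain ⟨Θ, hΘ0, hΘ2, hΘπ, hsin, hcos, hip⟩ := X2_angle a b S S' ha hb hS hS'
  obtain ⟨T, hT4, hT1, hT5⟩ := X2_floor a ha
  have ha0 : 0 < a := by linarith
  have hTpos : (0 : ℝ) < T := by linarith
  have hsp : 0 < sin Θ := by linarith
  obtain ⟨h, hh⟩ : ∃ h : ℝ, h = Θ / T := ⟨_, rfl⟩
  have hTh : (T : ℝ) * h = Θ := by rw [hh]; field_simp
  have hh0 : 0 ≤ h := by rw [hh]; positivity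
  have hx0 : ∀ P Q : ℝ, X2_x Θ (((0 : ℕ) : ℝ) * h) P Q = P := by
    intro P Q
    simp only [X2_x, Nat.cast_zero, zero_mul, sub_zero, sin_zero, add_zero]
    rw [mul_div_cancel_left₀ _ hsp.ne']
  have hxT : ∀ P Q : ℝ, X2_x Θ ((T : ℝ) * h) P Q = Q := by
    intro P Q
    simp only [X2_x, hTh, sub_self, sin_zero, zero_mul, zero_add]
    rw [mul_div_cancel_left₀ _ hsp.ne']
  have hnorm : ∀ j : ℕ, ∑ i, X2_x Θ (j * h) ((![-S, -(a / 4), a / 4] : Fin 3 → ℝ) i)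
      ((![-(b / 4), b / 4, S'] : Fin 3 → ℝ) i) ^ 2 = S ^ 2 + a ^ 2 / 8 := by
    intro j
    apply X2_norm Θ _ _ hsp.ne'
    · simp [Fin.sum_univ_three]
      ring
    · rw [heq]
      simp [Fin.sum_univ_three]
      ring
    · rw [← hip]
      simp [Fin.sum_univ_three]
      ring
  refine ⟨T, fun j i => X2_x Θ (j * h) ((![-S, -(a / 4), a / 4] : Fin 3 → ℝ) i)
    ((![-(b / 4), b / 4, S'] : Fin 3 → ℝ) i), hT1, hx0 _ _, hx0 _ _, hx0 _ _, hxT _ _, hxT _ _,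
    hxT _ _, ?_, ?_⟩
  · intro j hj i
    have hjT : (j : ℝ) + 1 ≤ T := by exact_mod_cast hj
    have e0 : (((j + 1 : ℕ) : ℝ)) * h = j * h + h := by push_cast; ring
    have m0 : 0 ≤ (j : ℝ) * h + h / 2 := by positivity
    have m1 : (j : ℝ) * h + h / 2 ≤ Θ := by
      have h1 : (j + 1 : ℝ) * h ≤ T * h := mul_le_mul_of_nonneg_right hjT hh0
      rw [hTh, add_mul, one_mul] at h1
      linarith
    have cB1 : cos Θ ≤ cos ((j : ℝ) * h + h / 2) :=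
      cos_le_cos_of_nonneg_of_le_pi m0 hΘπ m1
    have cA1 : cos Θ ≤ cos (Θ - ((j : ℝ) * h + h / 2)) :=
      cos_le_cos_of_nonneg_of_le_pi (by linarith) hΘπ (by linarith)
    obtain ⟨l1, l2⟩ := X2_lohi a b S S' (cos (Θ - ((j : ℝ) * h + h / 2)))
      (cos ((j : ℝ) * h + h / 2)) i ha0 hb hS hS' (hcos.trans cA1) (cos_le_one _)
      (hcos.trans cB1) (cos_le_one _)
    have := X2_comp Θ ((j : ℝ) * h) h a _ _ T hΘ0 hΘ2 hsin (sin_le_one _) ha hT1 hT5 hh l1 l2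
    rw [← e0] at this
    exact this
  · intro j _
    have h1 := hnorm j
    have h2 := hnorm (j + 1)
    rw [Fin.sum_univ_three] at h1 h2
    exact h2.trans h1.symm

end Pool.Agent.H427R2.WX
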