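import Pool.Agent.H427R2.WX.St

set_option autoImplicit false

/-! Concatenation of the rounds (helper497). -/

namespace Pool.Agent.H427R2.WX

open Finset
open Pool.Agent.Helper883.Dicut

/-- three moving particles -/
noncomputable def X3_Y {N : ℕ} (c0 c1 c2 : Fin N) (z : Fin N → ℝ) (X : ℕ → Fin 3 → ℝ) (j : ℕ)
    (C : Fin N) : ℝ :=
  if C = c0 then X j 2 else if C = c1 then X j 1 else if C = c2 then X j 0 else z C

lemma X3_Yval {N : ℕ} (a b d c : ℕ) (ha : a < N) (hb : b < N) (hd : d < N) (hc : c < N)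
    (z : Fin N → ℝ) (X : ℕ → Fin 3 → ℝ) (j : ℕ) :
    X3_Y (⟨a, ha⟩ : Fin N) ⟨b, hb⟩ ⟨d, hd⟩ z X j ⟨c, hc⟩ =
      if c = a then X j 2 else if c = b then X j 1 else if c = d then X j 0 else z ⟨c, hc⟩ := by
  unfold X3_Y
  simp only [Fin.mk.injEq]

lemma X3_three {N : ℕ} (c0 c1 c2 : Fin N) (h01 : c1 ≠ c0) (h02 : c2 ≠ c0) (h12 : c2 ≠ c1)
    (z : Fin N → ℝ) (T : ℕ) (X : ℕ → Fin 3 → ℝ)
    (h1 : ∀ j, j < T → ∀ i, 1 ≤ X (j + 1) i - X j i ∧ X (j + 1) i - X j i ≤ 64)
    (h2 : ∀ j, j < T → X (j + 1) 0 ^ 2 + X (j + 1) 1 ^ 2 + X (j + 1) 2 ^ 2 =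
      X j 0 ^ 2 + X j 1 ^ 2 + X j 2 ^ 2) : Motion T N (X3_Y c0 c1 c2 z X) 64 := by
  have e0 : ∀ j, X3_Y c0 c1 c2 z X j c0 = X j 2 := fun j => if_pos rfl
  have e1 : ∀ j, X3_Y c0 c1 c2 z X j c1 = X j 1 := fun j => by
    unfold X3_Y
    rw [if_neg h01, if_pos rfl]
  have e2 : ∀ j, X3_Y c0 c1 c2 z X j c2 = X j 0 := fun j => by
    unfold X3_Y
    rw [if_neg h02, if_neg h12, if_pos rfl]
  have e3 : ∀ j C, C ≠ c0 → C ≠ c1 → C ≠ c2 → X3_Y c0 c1 c2 z X j C = z C := fun j C a b c => by
    unfold X3_Y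
    rw [if_neg a, if_neg b, if_neg c]
  refine ⟨?_, ?_, ?_⟩
  · intro t ht C
    by_cases a : C = c0
    · rw [a, e0, e0]
      exact Or.inr (h1 t ht 2)
    · by_cases b : C = c1
      · rw [b, e1, e1]
        exact Or.inr (h1 t ht 1)
      · by_cases c : C = c2
        · rw [c, e2, e2]
          exact Or.inr (h1 t ht 0)
        · rw [e3 _ _ a b c, e3 _ _ a b c]
          exact Or.inl (sub_self _)
  · intro t ht
    have hs : univ.filter (fun C => X3_Y c0 c1 c2 z X (t + 1) C ≠ X3_Y c0 c1 c2 z X t C) ⊆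
        {c0, c1, c2} := by
      intro C hC
      rw [Finset.mem_filter] at hC
      rw [Finset.mem_insert, Finset.mem_insert, Finset.mem_singleton]
      by_contra hne
      push Not at hne
      exact hC.2 (by rw [e3 _ _ hne.1 hne.2.1 hne.2.2, e3 _ _ hne.1 hne.2.1 hne.2.2])
    exact (Finset.card_le_card hs).trans Finset.card_le_three
  · intro t ht
    rw [← sub_eq_zero, ← Finset.sum_sub_distrib]
    have hs : ∑ C ∈ ({c0, c1, c2} : Finset (Fin N)),
        (X3_Y c0 c1 c2 z X (t + 1) C ^ 2 - X3_Y c0 c1 c2 z X t C ^ 2) =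
        ∑ C, (X3_Y c0 c1 c2 z X (t + 1) C ^ 2 - X3_Y c0 c1 c2 z X t C ^ 2) := by
      refine Finset.sum_subset (Finset.subset_univ _) fun C _ hC => ?_
      rw [Finset.mem_insert, Finset.mem_insert, Finset.mem_singleton] at hC
      push Not at hC
      rw [e3 _ _ hC.1 hC.2.1 hC.2.2, e3 _ _ hC.1 hC.2.1 hC.2.2, sub_self]
    have hn0 : c0 ∉ ({c1, c2} : Finset (Fin N)) := by
      rw [Finset.mem_insert, Finset.mem_singleton]
      push Not
      exact ⟨h01.symm, h02.symm⟩
    have hn1 : c1 ∉ ({c2} : Finset (Fin N)) := by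
      rw [Finset.mem_singleton]
      exact h12.symm
    rw [← hs, Finset.sum_insert hn0, Finset.sum_insert hn1, Finset.sum_singleton, e0, e0, e1, e1,
      e2, e2]
    have := h2 t ht
    linarith

lemma X3_concat {N n T : ℕ} (x Y : ℕ → Fin N → ℝ) (Fm : ℝ) (hx : Motion n N x Fm)
    (hY : Motion T N Y Fm) (h : x n = Y 0) :
    Motion (n + T) N (fun t => if t ≤ n then x t else Y (t - n)) Fm := by
  have key : ∀ t, t < n + T →
      (t < n ∧ (fun t => if t ≤ n then x t else Y (t - n)) t = x t ∧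
        (fun t => if t ≤ n then x t else Y (t - n)) (t + 1) = x (t + 1)) ∨
      (∃ j, j < T ∧ (fun t => if t ≤ n then x t else Y (t - n)) t = Y j ∧
        (fun t => if t ≤ n then x t else Y (t - n)) (t + 1) = Y (j + 1)) := by
    intro t ht
    rcases Nat.lt_or_ge t n with h1 | h1
    · left
      refine ⟨h1, if_pos h1.le, if_pos h1⟩
    · right
      refine ⟨t - n, by omega, ?_, ?_⟩
      · rcases Nat.eq_or_lt_of_le h1 with h2 | h2
        · subst h2
          simp only [le_refl, if_true, Nat.sub_self]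
          exact h
        · exact if_neg (by omega)
      · have e : t + 1 - n = t - n + 1 := by omega
        simp only
        rw [if_neg (by omega), e]
  refine ⟨?_, ?_, ?_⟩
  · intro t ht C
    rcases key t ht with ⟨h1, h2, h3⟩ | ⟨j, h1, h2, h3⟩
    · rw [h2, h3]
      exact hx.1 t h1 C
    · rw [h2, h3]
      exact hY.1 j h1 C
  · intro t ht
    rcases key t ht with ⟨h1, h2, h3⟩ | ⟨j, h1, h2, h3⟩
    · rw [h2, h3]
      exact hx.2.1 t h1
    · rw [h2, h3]
      exact hY.2.1 j h1
  · intro t ht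
    rcases key t ht with ⟨h1, h2, h3⟩ | ⟨j, h1, h2, h3⟩
    · rw [h2, h3]
      exact hx.2.2 t h1
    · rw [h2, h3]
      exact hY.2.2 j h1

/-- state after `m` rounds -/
noncomputable def X3_s (R S S' : ℕ → ℝ) (m C : ℕ) : ℝ :=
  if C < m then S' C else if C = m then R m / 4 else if C = m + 1 then -(R m / 4) else -S (C - 2)

theorem t_X3 (h2 : S_X2) : S_X3 := by
  intro M R S S' hM hR
  have key : ∀ m, m ≤ M → ∃ (n : ℕ) (x : ℕ → Fin (M + 2) → ℝ),
      (n : ℝ) ≤ (∑ r ∈ range m, R r) / 14 ∧ Motion n (M + 2) x 64 ∧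
      (∀ C : Fin (M + 2), x 0 C = X3_s R S S' 0 C) ∧
      (∀ C : Fin (M + 2), x n C = X3_s R S S' m C) := by
    intro m
    induction m with
    | zero =>
      intro _
      refine ⟨0, fun _ C => X3_s R S S' 0 C, ?_, ?_, fun _ => rfl, fun _ => rfl⟩
      · simp
      · exact ⟨fun t ht => absurd ht (by omega), fun t ht => absurd ht (by omega),
          fun t ht => absurd ht (by omega)⟩
    | succ m ih =>
      intro hm
      obtain ⟨n, x, hn, hx, hx0, hxn⟩ := ih (by omega)
      obtain ⟨r1, r2, r3, r4, r5⟩ := hR m (by omega)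
      obtain ⟨T, X, hT, x00, x01, x02, xT0, xT1, xT2, hst, hsq⟩ :=
        h2 (R m) (R (m + 1)) (S m) (S' m) r1 r2 r3 r4 r5
      have q0 : m < M + 2 := by omega
      have q1 : m + 1 < M + 2 := by omega
      have q2 : m + 2 < M + 2 := by omega
      have hY := X3_three (⟨m, q0⟩ : Fin (M + 2)) ⟨m + 1, q1⟩ ⟨m + 2, q2⟩
        (by rw [Ne, Fin.mk.injEq]; omega) (by rw [Ne, Fin.mk.injEq]; omega)
        (by rw [Ne, Fin.mk.injEq]; omega) (fun C => X3_s R S S' m C) T X hst hsq
      have hY0 : x n = X3_Y (⟨m, q0⟩ : Fin (M + 2)) ⟨m + 1, q1⟩ ⟨m + 2, q2⟩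
          (fun C => X3_s R S S' m C) X 0 := by
        funext C
        rw [hxn]
        obtain ⟨c, hc⟩ := C
        rw [X3_Yval, x00, x01, x02]
        show X3_s R S S' m c = _
        by_cases a : c = m
        · rw [if_pos a]
          unfold X3_s
          rw [if_neg (by omega), if_pos a]
        · rw [if_neg a]
          by_cases b : c = m + 1
          · rw [if_pos b]
            unfold X3_s
            rw [if_neg (by omega), if_neg (by omega), if_pos b]
          · rw [if_neg b]
            by_cases d : c = m + 2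
            · rw [if_pos d]
              unfold X3_s
              rw [if_neg (by omega), if_neg (by omega), if_neg (by omega)]
              have e : c - 2 = m := by omega
              rw [e]
            · rw [if_neg d]
      refine ⟨n + T, fun t => if t ≤ n then x t else X3_Y (⟨m, q0⟩ : Fin (M + 2)) ⟨m + 1, q1⟩
        ⟨m + 2, q2⟩ (fun C => X3_s R S S' m C) X (t - n), ?_, X3_concat x _ 64 hx hY hY0, ?_, ?_⟩
      · rw [Finset.sum_range_succ, Nat.cast_add]
        have : (∑ r ∈ range m, R r + R m) / 14 = (∑ r ∈ range m, R r) / 14 + R m / 14 := by ring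
        rw [this]
        linarith
      · intro C
        simp only [Nat.zero_le, if_true]
        exact hx0 C
      · intro C
        have hval : (if n + T ≤ n then x (n + T) else X3_Y (⟨m, q0⟩ : Fin (M + 2)) ⟨m + 1, q1⟩
            ⟨m + 2, q2⟩ (fun C => X3_s R S S' m C) X (n + T - n)) =
            X3_Y (⟨m, q0⟩ : Fin (M + 2)) ⟨m + 1, q1⟩ ⟨m + 2, q2⟩ (fun C => X3_s R S S' m C) X T := by
          rcases Nat.eq_zero_or_pos T with hT0 | hT0
          · subst hT0
            rw [if_pos (by omega)]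
            exact hY0
          · rw [if_neg (by omega), Nat.add_sub_cancel_left]
        simp only
        rw [hval]
        obtain ⟨c, hc⟩ := C
        rw [X3_Yval, xT0, xT1, xT2]
        show _ = X3_s R S S' (m + 1) c
        by_cases a : c = m
        · rw [if_pos a]
          unfold X3_s
          rw [if_pos (by omega), a]
        · rw [if_neg a]
          by_cases b : c = m + 1
          · rw [if_pos b]
            unfold X3_s
            rw [if_neg (by omega), if_pos b]
          · rw [if_neg b]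
            by_cases d : c = m + 2
            · rw [if_pos d]
              unfold X3_s
              rw [if_neg (by omega), if_neg (by omega), if_pos (by omega)]
            · rw [if_neg d]
              show X3_s R S S' m c = _
              unfold X3_s
              by_cases f : c < m
              · rw [if_pos f, if_pos (by omega)]
              · rw [if_neg f, if_neg a, if_neg b, if_neg (by omega), if_neg b, if_neg (by omega)]
  obtain ⟨n, x, h3, h4, h5, h6⟩ := key M le_rfl
  refine ⟨n, x, h3, h4, fun C => ?_, fun C => ?_⟩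
  · rw [h5]
    unfold X3_s st
    by_cases a : (C : ℕ) = 0
    · rw [if_neg (by omega), if_pos a]
    · rw [if_neg (by omega), if_neg a]
  · rw [h6]
    unfold X3_s en
    have hC := C.2
    by_cases a : (C : ℕ) < M
    · rw [if_pos a, if_pos a]
    · rw [if_neg a, if_neg a]
      by_cases b : (C : ℕ) = M
      · rw [if_pos b, if_pos b]
      · rw [if_neg b, if_neg b, if_pos (by omega)]

end Pool.Agent.H427R2.WX
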