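import Pool.Agent.H427R2.WX.St

set_option autoImplicit false

namespace Pool.Agent.H427R2.WX

open Finset
open Pool.Agent.Helper883.Dicut

theorem X4_mid (p q a b : ℝ) (hp : 0 ≤ p) (hq : 0 ≤ q) (hpq : p + q = 16) (ha : 0 ≤ a)
    (hb : 0 ≤ b) :
    Real.sqrt ((p * b ^ 2 + q * a ^ 2) / 16) ^ 2 = (p * b ^ 2 + q * a ^ 2) / 16 ∧
    |Real.sqrt ((p * b ^ 2 + q * a ^ 2) / 16) - a| ≤ |b - a| := by
  have h0 : 0 ≤ (p * b ^ 2 + q * a ^ 2) / 16 := by positivity
  refine ⟨Real.sq_sqrt h0, ?_⟩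
  have e : q = 16 - p := by linarith
  rcases le_total a b with h | h
  · have h1 : a ^ 2 ≤ (p * b ^ 2 + q * a ^ 2) / 16 := by
      have h2 : a ^ 2 ≤ b ^ 2 := pow_le_pow_left₀ ha h 2
      have := mul_le_mul_of_nonneg_left h2 hp
      rw [e]
      linarith
    have h2 : (p * b ^ 2 + q * a ^ 2) / 16 ≤ b ^ 2 := by
      have h2 : a ^ 2 ≤ b ^ 2 := pow_le_pow_left₀ ha h 2
      have := mul_le_mul_of_nonneg_left h2 hq
      have e' : p = 16 - q := by linarith
      rw [e']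
      linarith
    have h3 := Real.le_sqrt_of_sq_le h1
    have h4 : Real.sqrt ((p * b ^ 2 + q * a ^ 2) / 16) ≤ b := Real.sqrt_le_iff.2 ⟨hb, h2⟩
    rw [abs_of_nonneg (by linarith), abs_of_nonneg (by linarith)]
    linarith
  · have h1 : b ^ 2 ≤ (p * b ^ 2 + q * a ^ 2) / 16 := by
      have h2 : b ^ 2 ≤ a ^ 2 := pow_le_pow_left₀ hb h 2
      have := mul_le_mul_of_nonneg_left h2 hq
      have e' : p = 16 - q := by linarith
      rw [e']
      linarith
    have h2 : (p * b ^ 2 + q * a ^ 2) / 16 ≤ a ^ 2 := by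
      have h2 : b ^ 2 ≤ a ^ 2 := pow_le_pow_left₀ hb h 2
      have := mul_le_mul_of_nonneg_left h2 hp
      rw [e]
      linarith
    have h3 := Real.le_sqrt_of_sq_le h1
    have h4 : Real.sqrt ((p * b ^ 2 + q * a ^ 2) / 16) ≤ a := Real.sqrt_le_iff.2 ⟨ha, h2⟩
    rw [abs_of_nonpos (by linarith), abs_of_nonpos (by linarith)]
    linarith

/-- the profile -/
noncomputable def X4_g (I : ℕ) (r : ℕ) : ℝ := (I : ℝ) + 300 - |(r : ℝ) - I|

/-- radii -/
noncomputable def X4_R (I : ℕ) (r : ℕ) : ℝ := X4_g I r ^ 2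

/-- starts -/
noncomputable def X4_S (I : ℕ) (r : ℕ) : ℝ :=
  Real.sqrt ((9 * X4_R I (r + 1) ^ 2 + 7 * X4_R I r ^ 2) / 16)

/-- ends -/
noncomputable def X4_S' (I : ℕ) (r : ℕ) : ℝ :=
  Real.sqrt ((7 * X4_R I (r + 1) ^ 2 + 9 * X4_R I r ^ 2) / 16)

theorem X4_g_lo (I r : ℕ) (h : r ≤ 2 * I) : 300 ≤ X4_g I r := by
  unfold X4_g
  have h1 : (r : ℝ) ≤ 2 * I := by exact_mod_cast h
  have h0 : (0 : ℝ) ≤ r := Nat.cast_nonneg r
  have h2 : |(r : ℝ) - I| ≤ I := abs_le.2 ⟨by linarith, by linarith⟩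
  linarith

theorem X4_g_hi (I r : ℕ) : X4_g I r ≤ I + 300 := by
  unfold X4_g
  have := abs_nonneg ((r : ℝ) - I)
  linarith

theorem X4_g_step (I r : ℕ) : |X4_g I (r + 1) - X4_g I r| ≤ 1 := by
  unfold X4_g
  have e : (I : ℝ) + 300 - |((r + 1 : ℕ) : ℝ) - I| - ((I : ℝ) + 300 - |(r : ℝ) - I|) =
      |(r : ℝ) - I| - |((r + 1 : ℕ) : ℝ) - I| := by ring
  rw [e]
  refine (abs_abs_sub_abs_le _ _).trans ?_
  push_cast
  have e2 : (r : ℝ) - I - ((r : ℝ) + 1 - I) = -1 := by ring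
  rw [e2]
  norm_num

theorem X4_R_step (I r : ℕ) (h : r < 2 * I) :
    |X4_R I (r + 1) - X4_R I r| ≤ 2 * X4_g I r + 1 := by
  unfold X4_R
  have h1 := X4_g_step I r
  have h2 := X4_g_lo I r h.le
  have h3 := X4_g_lo I (r + 1) h
  have e : X4_g I (r + 1) ^ 2 - X4_g I r ^ 2 =
      (X4_g I (r + 1) - X4_g I r) * (X4_g I (r + 1) + X4_g I r) := by ring
  rw [e, abs_mul, abs_of_nonneg (by linarith : 0 ≤ X4_g I (r + 1) + X4_g I r)]
  have h4 := (abs_le.1 h1).2
  calc |X4_g I (r + 1) - X4_g I r| * (X4_g I (r + 1) + X4_g I r)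
      ≤ 1 * (X4_g I (r + 1) + X4_g I r) :=
        mul_le_mul_of_nonneg_right h1 (by linarith)
    _ ≤ 2 * X4_g I r + 1 := by linarith

theorem X4_R_step' (I r : ℕ) (h : r < 2 * I) :
    |X4_R I (r + 1) - X4_R I r| ≤ X4_R I r / 100 := by
  refine (X4_R_step I r h).trans ?_
  have h2 := X4_g_lo I r h.le
  unfold X4_R
  nlinarith

theorem X4_R_nonneg (I r : ℕ) : 0 ≤ X4_R I r := sq_nonneg _

theorem X4_R_hi (I r : ℕ) (h : r ≤ 2 * I) : X4_R I r ≤ ((I : ℝ) + 300) ^ 2 :=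
  pow_le_pow_left₀ (by linarith [X4_g_lo I r h]) (X4_g_hi I r) 2

theorem X4_S_near (I r : ℕ) : |X4_S I r - X4_R I r| ≤ |X4_R I (r + 1) - X4_R I r| :=
  (X4_mid 9 7 _ _ (by norm_num) (by norm_num) (by norm_num) (X4_R_nonneg I r)
    (X4_R_nonneg I (r + 1))).2

theorem X4_S'_near (I r : ℕ) : |X4_S' I r - X4_R I r| ≤ |X4_R I (r + 1) - X4_R I r| :=
  (X4_mid 7 9 _ _ (by norm_num) (by norm_num) (by norm_num) (X4_R_nonneg I r)
    (X4_R_nonneg I (r + 1))).2

theorem X4_rounds (I : ℕ) : Rounds (2 * I) (X4_R I) (X4_S I) (X4_S' I) := by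
  intro r hr
  refine ⟨?_, X4_R_step' I r hr, ?_, (X4_S_near I r).trans (X4_R_step' I r hr),
    (X4_S'_near I r).trans (X4_R_step' I r hr)⟩
  · have h2 := X4_g_lo I r hr.le
    unfold X4_R
    nlinarith
  · have h1 : X4_S I r ^ 2 = _ := (X4_mid 9 7 _ _ (by norm_num) (by norm_num) (by norm_num)
      (X4_R_nonneg I r) (X4_R_nonneg I (r + 1))).1
    have h2 : X4_S' I r ^ 2 = _ := (X4_mid 7 9 _ _ (by norm_num) (by norm_num) (by norm_num)
      (X4_R_nonneg I r) (X4_R_nonneg I (r + 1))).1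
    rw [h1, h2]
    ring

theorem X4_S_bd (I r : ℕ) (h : r < 2 * I) :
    99 / 100 * X4_R I r ≤ X4_S I r ∧ X4_S I r ≤ 101 / 100 * X4_R I r := by
  have h1 := abs_le.1 ((X4_S_near I r).trans (X4_R_step' I r h))
  constructor <;> linarith [h1.1, h1.2]

theorem X4_S'_bd (I r : ℕ) (h : r < 2 * I) :
    99 / 100 * X4_R I r ≤ X4_S' I r ∧ X4_S' I r ≤ 101 / 100 * X4_R I r := by
  have h1 := abs_le.1 ((X4_S'_near I r).trans (X4_R_step' I r h))
  constructor <;> linarith [h1.1, h1.2]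

/-- all positions are at most `1.01 P^2` -/
theorem X4_st_bd (I C : ℕ) (hI : 700 ≤ I) (hC : C < 2 * I + 2) :
    |st (X4_R I) (X4_S I) C| ≤ 101 / 100 * ((I : ℝ) + 300) ^ 2 := by
  have h0 := X4_R_hi I 0 (by omega)
  have h0' := X4_R_nonneg I 0
  have hp : 0 ≤ ((I : ℝ) + 300) ^ 2 := by positivity
  unfold st
  split_ifs with h1 h2
  · rw [abs_of_nonneg (by linarith)]
    linarith
  · rw [abs_neg, abs_of_nonneg (by linarith)]
    linarith
  · have h3 : C - 2 < 2 * I := by omega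
    have h4 := X4_S_bd I (C - 2) h3
    have h5 := X4_R_hi I (C - 2) h3.le
    have h6 := X4_R_nonneg I (C - 2)
    rw [abs_neg, abs_of_nonneg (by linarith)]
    linarith

theorem X4_en_bd (I C : ℕ) (hI : 700 ≤ I) (hC : C < 2 * I + 2) :
    |en (2 * I) (X4_R I) (X4_S' I) C| ≤ 101 / 100 * ((I : ℝ) + 300) ^ 2 := by
  have h0 := X4_R_hi I (2 * I) le_rfl
  have h0' := X4_R_nonneg I (2 * I)
  have hp : 0 ≤ ((I : ℝ) + 300) ^ 2 := by positivity
  unfold en
  split_ifs with h1 h2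
  · have h4 := X4_S'_bd I C h1
    have h5 := X4_R_hi I C h1.le
    have h6 := X4_R_nonneg I C
    rw [abs_of_nonneg (by linarith)]
    linarith
  · rw [abs_of_nonneg (by linarith)]
    linarith
  · rw [abs_neg, abs_of_nonneg (by linarith)]
    linarith

/-- small radii at the ends -/
theorem X4_R_small (I r : ℕ) (h : r ≤ 2 * I) (hr : r ≤ 2 ∨ 2 * I ≤ r + 2) :
    X4_R I r ≤ 91204 := by
  have h2 := X4_g_lo I r h
  have h3 : X4_g I r ≤ 302 := by
    unfold X4_g
    rcases hr with hr | hr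
    · have h1 : (r : ℝ) ≤ 2 := by exact_mod_cast hr
      have := neg_abs_le ((r : ℝ) - I)
      linarith
    · have h1 : 2 * (I : ℝ) ≤ r + 2 := by exact_mod_cast hr
      have := le_abs_self ((r : ℝ) - I)
      linarith
  unfold X4_R
  nlinarith

/-- the interior excess -/
theorem X4_mid_ex (I C : ℕ) (hI : 700 ≤ I) (hC : C + 2 < 2 * I) :
    (en (2 * I) (X4_R I) (X4_S' I) (C + 2) + st (X4_R I) (X4_S I) (C + 2)) ^ 2 ≤
      81 * ((I : ℝ) + 300) ^ 2 := by
  unfold en st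
  rw [if_pos hC, if_neg (by omega), if_neg (by omega), Nat.add_sub_cancel]
  have a1 := abs_le.1 ((X4_S'_near I (C + 2)).trans (X4_R_step I (C + 2) hC))
  have a2 := abs_le.1 ((X4_S_near I C).trans (X4_R_step I C (by omega)))
  have a3 := abs_le.1 (X4_R_step I (C + 1) (by omega))
  have a4 := abs_le.1 (X4_R_step I C (by omega))
  have b1 := X4_g_hi I C
  have b2 := X4_g_hi I (C + 1)
  have b3 := X4_g_hi I (C + 2)
  have hI' : (700 : ℝ) ≤ I := by exact_mod_cast hI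
  have e : X4_S' I (C + 2) + -X4_S I C = (X4_S' I (C + 2) - X4_R I (C + 2)) +
      (X4_R I (C + 1 + 1) - X4_R I (C + 1)) + (X4_R I (C + 1) - X4_R I C) -
      (X4_S I C - X4_R I C) := by ring
  have hle : |X4_S' I (C + 2) + -X4_S I C| ≤ 9 * ((I : ℝ) + 300) := by
    rw [e]
    apply abs_le.2
    constructor
    · linarith [a1.1, a2.2, a3.1, a4.1]
    · linarith [a1.2, a2.1, a3.2, a4.2]
  rw [← sq_abs]
  calc |X4_S' I (C + 2) + -X4_S I C| ^ 2 ≤ (9 * ((I : ℝ) + 300)) ^ 2 :=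
        pow_le_pow_left₀ (abs_nonneg _) hle 2
    _ = 81 * ((I : ℝ) + 300) ^ 2 := by ring

/-- the excess of the four boundary particles -/
theorem X4_bd_ex (I C : ℕ) (hI : 700 ≤ I) (hC : C < 2 * I + 2) (hC' : C ≤ 1 ∨ 2 * I ≤ C) :
    (en (2 * I) (X4_R I) (X4_S' I) C + st (X4_R I) (X4_S I) C) ^ 2 ≤ 34 * 10 ^ 9 := by
  have hen : |en (2 * I) (X4_R I) (X4_S' I) C| ≤ 101 / 100 * 91204 := by
    unfold en
    split_ifs with h1 h2
    · have h4 := X4_S'_bd I C h1
      have h5 := X4_R_small I C h1.le (by omega)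
      have h6 := X4_R_nonneg I C
      rw [abs_of_nonneg (by linarith)]
      linarith
    · have h5 := X4_R_small I (2 * I) le_rfl (by omega)
      have h6 := X4_R_nonneg I (2 * I)
      rw [abs_of_nonneg (by linarith)]
      linarith
    · have h5 := X4_R_small I (2 * I) le_rfl (by omega)
      have h6 := X4_R_nonneg I (2 * I)
      rw [abs_neg, abs_of_nonneg (by linarith)]
      linarith
  have hst : |st (X4_R I) (X4_S I) C| ≤ 101 / 100 * 91204 := by
    have h5 := X4_R_small I 0 (by omega) (by omega)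
    have h6 := X4_R_nonneg I 0
    unfold st
    split_ifs with h1 h2
    · rw [abs_of_nonneg (by linarith)]
      linarith
    · rw [abs_neg, abs_of_nonneg (by linarith)]
      linarith
    · have h3 : C - 2 < 2 * I := by omega
      have h4 := X4_S_bd I (C - 2) h3
      have h5 := X4_R_small I (C - 2) h3.le (by omega)
      have h6 := X4_R_nonneg I (C - 2)
      rw [abs_neg, abs_of_nonneg (by linarith)]
      linarith
  have h1 : |en (2 * I) (X4_R I) (X4_S' I) C + st (X4_R I) (X4_S I) C| ≤ 184233 :=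
    (abs_add_le _ _).trans (by linarith)
  rw [← sq_abs]
  refine (pow_le_pow_left₀ (abs_nonneg _) h1 2).trans ?_
  norm_num

/-- upper bound for the displacement -/
theorem X4_disp (I C : ℕ) (hI : 700 ≤ I) (hC : C < 2 * I + 2) :
    (en (2 * I) (X4_R I) (X4_S' I) C - st (X4_R I) (X4_S I) C) ^ 2 ≤
      5 * ((I : ℝ) + 300) ^ 4 := by
  have h1 := X4_en_bd I C hI hC
  have h2 := X4_st_bd I C hI hC
  have h3 : |en (2 * I) (X4_R I) (X4_S' I) C - st (X4_R I) (X4_S I) C| ≤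
      202 / 100 * ((I : ℝ) + 300) ^ 2 :=
    (abs_sub _ _).trans (by linarith)
  rw [← sq_abs]
  refine (pow_le_pow_left₀ (abs_nonneg _) h3 2).trans ?_
  have h4 : 0 ≤ ((I : ℝ) + 300) ^ 4 := by positivity
  have e : (202 / 100 * ((I : ℝ) + 300) ^ 2) ^ 2 = 40804 / 10000 * ((I : ℝ) + 300) ^ 4 := by ring
  rw [e]
  linarith

/-- lower bound for the displacement of the middle particles -/
theorem X4_disp_lo (I C : ℕ) (hI : 700 ≤ I) (h1 : I ≤ C) (h2 : C < I + I / 2) :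
    ((I : ℝ) + 300) ^ 4 / 5 ≤
      (en (2 * I) (X4_R I) (X4_S' I) C - st (X4_R I) (X4_S I) C) ^ 2 := by
  have hI' : (700 : ℝ) ≤ I := by exact_mod_cast hI
  have hC1 : (I : ℝ) ≤ C := by exact_mod_cast h1
  have hC2 : 2 * (C : ℝ) ≤ 3 * I := by
    have : 2 * C ≤ 3 * I := by omega
    exact_mod_cast this
  have g1 : ((I : ℝ) + 300) / 2 ≤ X4_g I C := by
    unfold X4_g
    rw [abs_of_nonneg (by linarith)]
    linarith
  have g2 : ((I : ℝ) + 300) / 2 ≤ X4_g I (C - 2) := by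
    unfold X4_g
    have : |((C - 2 : ℕ) : ℝ) - I| ≤ I / 2 := by
      rw [Nat.cast_sub (by omega)]
      apply abs_le.2
      push_cast
      constructor <;> linarith
    linarith
  have r1 : ((I : ℝ) + 300) ^ 2 / 4 ≤ X4_R I C := by
    have := pow_le_pow_left₀ (by positivity) g1 2
    unfold X4_R
    refine le_trans (le_of_eq ?_) this
    ring
  have r2 : ((I : ℝ) + 300) ^ 2 / 4 ≤ X4_R I (C - 2) := by
    have := pow_le_pow_left₀ (by positivity) g2 2
    unfold X4_R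
    refine le_trans (le_of_eq ?_) this
    ring
  have s1 := (X4_S'_bd I C (by omega)).1
  have s2 := (X4_S_bd I (C - 2) (by omega)).1
  unfold en st
  rw [if_pos (by omega), if_neg (by omega), if_neg (by omega)]
  have h3 : 495 / 1000 * ((I : ℝ) + 300) ^ 2 ≤ X4_S' I C - -X4_S I (C - 2) := by linarith
  have h4 := pow_le_pow_left₀ (by positivity) h3 2
  refine le_trans ?_ h4
  have h5 : 0 ≤ ((I : ℝ) + 300) ^ 4 := by positivity
  have e : (495 / 1000 * ((I : ℝ) + 300) ^ 2) ^ 2 =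
      245025 / 1000000 * ((I : ℝ) + 300) ^ 4 := by ring
  rw [e]
  linarith

theorem t_X4 (h1 : S_X1) (h3 : S_X3) : S_X4 := by
  refine ⟨2 / 100, 5, 10000, by norm_num, by norm_num, by norm_num, ?_⟩
  intro P hP
  obtain ⟨I, rfl⟩ : ∃ I, P = I + 300 := ⟨P - 300, by omega⟩
  have hI : 700 ≤ I := by omega
  have hI' : (700 : ℝ) ≤ I := by exact_mod_cast hI
  obtain ⟨n, x, hn, hmo, hx0, hxn⟩ := h3 (2 * I) (X4_R I) (X4_S I) (X4_S' I) (by omega)
    (X4_rounds I)
  obtain ⟨w, hw, hup, hlo, hmac⟩ := h1 n (2 * I + 2) x 64 (by norm_num) hmo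
  push_cast
  set p : ℝ := (I : ℝ) + 300 with hp
  have hp1000 : 1000 ≤ p := by rw [hp]; linarith
  have hp0 : 0 ≤ p := by linarith
  have hn' : (n : ℝ) ≤ p ^ 3 / 7 := by
    refine hn.trans ?_
    have : ∑ r ∈ range (2 * I), X4_R I r ≤ ∑ r ∈ range (2 * I), p ^ 2 :=
      sum_le_sum (fun r hr => X4_R_hi I r (mem_range.1 hr).le)
    rw [sum_const, card_range, nsmul_eq_mul] at this
    push_cast at this
    have h2 : 2 * (I : ℝ) * p ^ 2 ≤ 2 * p * p ^ 2 := by
      apply mul_le_mul_of_nonneg_right _ (by positivity)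
      rw [hp]
      linarith
    have e : 2 * p * p ^ 2 = 2 * p ^ 3 := by ring
    linarith
  have hdiff : ∀ C : Fin (2 * I + 2), x n C - x 0 C =
      en (2 * I) (X4_R I) (X4_S' I) C - st (X4_R I) (X4_S I) C := fun C => by
    rw [hx0, hxn]
  have hsum : ∀ C : Fin (2 * I + 2), x n C + x 0 C =
      en (2 * I) (X4_R I) (X4_S' I) C + st (X4_R I) (X4_S I) C := fun C => by
    rw [hx0, hxn]
  have e1 : ∑ C, (x n C - x 0 C) ^ 2 = ∑ C ∈ range (2 * I + 2),
      (en (2 * I) (X4_R I) (X4_S' I) C - st (X4_R I) (X4_S I) C) ^ 2 := by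
    rw [← Fin.sum_univ_eq_sum_range (fun C =>
      (en (2 * I) (X4_R I) (X4_S' I) C - st (X4_R I) (X4_S I) C) ^ 2)]
    exact sum_congr rfl (fun C _ => by rw [hdiff])
  have e2 : ∑ C, (x n C + x 0 C) ^ 2 = ∑ C ∈ range (2 * I + 2),
      (en (2 * I) (X4_R I) (X4_S' I) C + st (X4_R I) (X4_S I) C) ^ 2 := by
    rw [← Fin.sum_univ_eq_sum_range (fun C =>
      (en (2 * I) (X4_R I) (X4_S' I) C + st (X4_R I) (X4_S I) C) ^ 2)]
    exact sum_congr rfl (fun C _ => by rw [hsum])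
  have b1 : ∑ C, (x n C - x 0 C) ^ 2 ≤ 10 * p ^ 5 := by
    rw [e1]
    refine (sum_le_sum (fun C hC => X4_disp I C hI (mem_range.1 hC))).trans ?_
    rw [sum_const, card_range, nsmul_eq_mul]
    push_cast
    have h2 : (2 * (I : ℝ) + 2) * (5 * p ^ 4) ≤ 2 * p * (5 * p ^ 4) := by
      apply mul_le_mul_of_nonneg_right _ (by positivity)
      rw [hp]
      linarith
    refine h2.trans (le_of_eq ?_)
    ring
  have b2 : 6 / 100 * p ^ 5 ≤ ∑ C, (x n C - x 0 C) ^ 2 := by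
    rw [e1]
    have hsub : Ico I (I + I / 2) ⊆ range (2 * I + 2) := by
      intro C hC
      rw [mem_Ico] at hC
      rw [mem_range]
      omega
    refine le_trans ?_ (sum_le_sum_of_subset_of_nonneg hsub (fun _ _ _ => sq_nonneg _))
    refine le_trans ?_ (sum_le_sum (fun C hC => X4_disp_lo I C hI (mem_Ico.1 hC).1
      (mem_Ico.1 hC).2))
    rw [sum_const, Nat.card_Ico, nsmul_eq_mul, Nat.add_sub_cancel_left]
    have h2 : 3 / 10 * p ≤ ((I / 2 : ℕ) : ℝ) := by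
      have h4 : (I : ℝ) ≤ 2 * ((I / 2 : ℕ) : ℝ) + 1 := by
        have : I ≤ 2 * (I / 2) + 1 := by omega
        exact_mod_cast this
      rw [hp]
      linarith
    have h5 : 3 / 10 * p * (p ^ 4 / 5) ≤ ((I / 2 : ℕ) : ℝ) * (p ^ 4 / 5) :=
      mul_le_mul_of_nonneg_right h2 (by positivity)
    refine le_trans (le_of_eq ?_) h5
    ring
  have b3 : ∑ C, (x n C + x 0 C) ^ 2 ≤ 298 * p ^ 3 := by
    rw [e2]
    obtain ⟨m, hm⟩ : ∃ m, 2 * I = m + 2 := ⟨2 * I - 2, by omega⟩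
    have hp3 : (10 : ℝ) ^ 9 ≤ p ^ 3 := by
      have := pow_le_pow_left₀ (by norm_num) hp1000 3
      refine le_trans (by norm_num) this
    rw [sum_range_succ, sum_range_succ]
    have c1 := X4_bd_ex I (2 * I) hI (by omega) (by omega)
    have c2 := X4_bd_ex I (2 * I + 1) hI (by omega) (by omega)
    have c3 : ∑ C ∈ range (2 * I),
        (en (2 * I) (X4_R I) (X4_S' I) C + st (X4_R I) (X4_S I) C) ^ 2 ≤
        162 * p ^ 3 + 68 * 10 ^ 9 := by
      have c4 : ∑ C ∈ range (m + 2),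
          (en (2 * I) (X4_R I) (X4_S' I) C + st (X4_R I) (X4_S I) C) ^ 2 ≤
          162 * p ^ 3 + 68 * 10 ^ 9 := by
        rw [sum_range_succ', sum_range_succ']
        have c5 := X4_bd_ex I 0 hI (by omega) (by omega)
        have c6 := X4_bd_ex I 1 hI (by omega) (by omega)
        have c7 : ∑ C ∈ range m, (en (2 * I) (X4_R I) (X4_S' I) (C + 1 + 1) +
            st (X4_R I) (X4_S I) (C + 1 + 1)) ^ 2 ≤ ∑ C ∈ range m, 81 * p ^ 2 :=
          sum_le_sum (fun C hC => X4_mid_ex I C hI (by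
            have := mem_range.1 hC
            omega))
        rw [sum_const, card_range, nsmul_eq_mul] at c7
        have c8 : (m : ℝ) ≤ 2 * p := by
          have : (m : ℝ) ≤ 2 * I := by
            have : m ≤ 2 * I := by omega
            exact_mod_cast this
          rw [hp]
          linarith
        have c9 : (m : ℝ) * (81 * p ^ 2) ≤ 2 * p * (81 * p ^ 2) :=
          mul_le_mul_of_nonneg_right c8 (by positivity)
        have e3 : 2 * p * (81 * p ^ 2) = 162 * p ^ 3 := by ring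
        simp only [zero_add] at c5 c6 ⊢
        linarith
      rwa [← hm] at c4
    linarith
  refine ⟨n, w, hw, ?_, ?_, ?_⟩
  · have hp5 : (10 : ℝ) ^ 6 * p ^ 3 ≤ p ^ 5 := by
      have : (10 : ℝ) ^ 6 ≤ p ^ 2 := by
        have := pow_le_pow_left₀ (by norm_num) hp1000 2
        refine le_trans (by norm_num) this
      have h2 := mul_le_mul_of_nonneg_right this (by positivity : 0 ≤ p ^ 3)
      refine h2.trans (le_of_eq ?_)
      ring
    have h6 : 0 ≤ p ^ 3 := by positivity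
    norm_num at hlo hp5
    linarith [hlo, b2, hn', hp5]
  · linarith
  · have h6 : 0 ≤ p ^ 3 := by positivity
    norm_num at hmac
    linarith [hmac, b3, hn']

end Pool.Agent.H427R2.WX
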