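import Pool.Agent.H427R2.WX.St

set_option autoImplicit false

/-! Task X5: the final upper bound for `h_ω`. -/

namespace Pool.Agent.H427R2.WX

open Finset
open Pool.Agent.Helper883.Dicut

theorem X5_bdd {n : ℕ} (w : WDigraph n) : BddAbove (Set.range fun X => cutWeight w X) :=
  Set.Finite.bddAbove (Set.finite_range _)

theorem X5_mac_nonneg {n : ℕ} (w : WDigraph n) : 0 ≤ mac w := by
  have h := le_ciSup (X5_bdd w) ∅
  have h0 : cutWeight w ∅ = 0 := by simp [cutWeight]
  rw [h0] at h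
  exact h

theorem X5_le {n : ℕ} (w : WDigraph n) (hw : ClassW n w) (t : ℝ) (ht : totalWeight w = t) :
    hWeighted t ≤ mac w := by
  unfold hWeighted
  apply csSup_le
  · exact ⟨0, fun n w _ _ => X5_mac_nonneg w⟩
  · intro g hg
    exact hg n w hw ht

theorem X5_scale {n : ℕ} (w : WDigraph n) (s : ℝ) (hs : 1 ≤ s) (hw : ClassW n w) :
    ClassW n (fun u v => s * w u v) ∧ totalWeight (fun u v => s * w u v) = s * totalWeight w ∧
      mac (fun u v => s * w u v) ≤ s * mac w := by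
  have hs0 : s ≠ 0 := by
    intro h
    rw [h] at hs
    linarith
  refine ⟨⟨?_, ?_⟩, ?_, ?_⟩
  · have h1 : (fun a b => s * w a b ≠ 0) = fun a b => w a b ≠ 0 := by
      funext a b
      apply propext
      constructor
      · intro h h2
        exact h (by rw [h2, mul_zero])
      · intro h h2
        exact h ((mul_eq_zero.1 h2).resolve_left hs0)
    intro v
    show ¬ Relation.TransGen (fun a b => s * w a b ≠ 0) v v
    rw [h1]
    exact hw.1 v
  · intro u v
    rcases hw.2 u v with h | h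
    · left
      show s * w u v = 0
      rw [h, mul_zero]
    · right
      show 1 ≤ s * w u v
      nlinarith
  · unfold totalWeight
    rw [Finset.mul_sum]
    apply Finset.sum_congr rfl
    intro u _
    rw [Finset.mul_sum]
  · unfold mac
    apply ciSup_le
    intro X
    have h1 : cutWeight (fun u v => s * w u v) X = s * cutWeight w X := by
      unfold cutWeight
      rw [Finset.mul_sum]
      apply Finset.sum_congr rfl
      intro u _
      rw [Finset.mul_sum]
    rw [h1]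
    exact mul_le_mul_of_nonneg_left (le_ciSup (X5_bdd w) X) (by linarith)

/-- one arc of weight `t` -/
noncomputable def X5_w (t : ℝ) : WDigraph 2 := fun u v => if u = 0 ∧ v = 1 then t else 0

theorem X5_w_class (t : ℝ) (ht : 1 ≤ t) : ClassW 2 (X5_w t) := by
  refine ⟨fun v hv => ?_, fun u v => ?_⟩
  · have h1 : ∀ a b : Fin 2, X5_w t a b ≠ 0 → a < b := by
      intro a b h
      unfold X5_w at h
      split_ifs at h with h2
      · rw [h2.1, h2.2]
        decide
      · exact absurd rfl h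
    have h2 : ∀ a b : Fin 2, Relation.TransGen (fun a b => X5_w t a b ≠ 0) a b → a < b := by
      intro a b hab
      induction hab with
      | single h => exact h1 _ _ h
      | tail _ h ih => exact ih.trans (h1 _ _ h)
    exact lt_irrefl _ (h2 v v hv)
  · unfold X5_w
    split_ifs
    · exact Or.inr ht
    · exact Or.inl rfl

theorem X5_w_total (t : ℝ) : totalWeight (X5_w t) = t := by
  unfold totalWeight X5_w
  simp [Fin.sum_univ_two]

theorem X5_w_mac (t : ℝ) (ht : 1 ≤ t) : mac (X5_w t) ≤ t := by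
  unfold mac
  apply ciSup_le
  intro X
  have h0 : ∀ u v, 0 ≤ X5_w t u v := by
    intro u v
    unfold X5_w
    split_ifs
    · linarith
    · exact le_rfl
  calc cutWeight (X5_w t) X ≤ ∑ u ∈ X, ∑ v, X5_w t u v :=
        Finset.sum_le_sum fun u _ => Finset.sum_le_univ_sum_of_nonneg (h0 u)
    _ ≤ ∑ u, ∑ v, X5_w t u v :=
        Finset.sum_le_univ_sum_of_nonneg fun u => Finset.sum_nonneg fun v _ => h0 u v
    _ = t := X5_w_total t

theorem t_X5 (h4 : S_X4) : S_X5 := by
  obtain ⟨c1, c2, K, hc1, hc2, hK, h⟩ := h4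
  refine ⟨2 * c2 / c1 * K / c2 ^ ((3 : ℝ) / 5) + c2 * 1000 ^ 5, by positivity, fun t ht => ?_⟩
  have ht0 : 0 < t := by linarith
  have htp : 1 ≤ t ^ ((3 : ℝ) / 5) := Real.one_le_rpow ht (by norm_num)
  by_cases hbig : c2 * 1000 ^ 5 ≤ t
  · -- large `t`
    set y : ℝ := (t / c2) ^ ((1 : ℝ) / 5) with hy
    have hq0 : 0 ≤ t / c2 := by positivity
    have hy0 : 0 ≤ y := Real.rpow_nonneg hq0 _
    have hy5 : y ^ 5 = t / c2 := by
      rw [hy, ← Real.rpow_natCast, ← Real.rpow_mul hq0]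
      norm_num
    have hy3 : y ^ 3 = (t / c2) ^ ((3 : ℝ) / 5) := by
      rw [hy, ← Real.rpow_natCast, ← Real.rpow_mul hq0]
      norm_num
    have hy1000 : 1000 ≤ y := by
      have h1 : (1000 : ℝ) ^ 5 ≤ y ^ 5 := by
        rw [hy5, le_div_iff₀ hc2]
        linarith
      exact (pow_le_pow_iff_left₀ (by norm_num) hy0 (by norm_num)).1 h1
    set P : ℕ := ⌊y⌋₊ with hP
    have hPy : (P : ℝ) ≤ y := Nat.floor_le hy0
    have hyP : y < P + 1 := Nat.lt_floor_add_one y
    have hP1000 : 1000 ≤ P := Nat.le_floor (by exact_mod_cast hy1000)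
    have hP1000' : (1000 : ℝ) ≤ P := by exact_mod_cast hP1000
    have hP0 : (0 : ℝ) < P := by linarith
    obtain ⟨n, w, hw, hw1, hw2, hw3⟩ := h P hP1000
    have hW0 : 0 < totalWeight w := lt_of_lt_of_le (by positivity) hw1
    have hP5 : c2 * (P : ℝ) ^ 5 ≤ t := by
      have h1 : (P : ℝ) ^ 5 ≤ t / c2 := by
        rw [← hy5]
        exact pow_le_pow_left₀ hP0.le hPy 5
      rw [le_div_iff₀ hc2] at h1
      linarith
    have ht2 : t ≤ 2 * c2 * (P : ℝ) ^ 5 := by
      have h1 : t / c2 ≤ ((P : ℝ) * (1 + 1 / 1000)) ^ 5 := by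
        rw [← hy5]
        apply pow_le_pow_left₀ hy0
        nlinarith
      have h2 : ((P : ℝ) * (1 + 1 / 1000)) ^ 5 ≤ 2 * (P : ℝ) ^ 5 := by
        rw [mul_pow]
        have h3 : ((1 : ℝ) + 1 / 1000) ^ 5 ≤ 2 := by norm_num
        have h4 : (0 : ℝ) ≤ (P : ℝ) ^ 5 := by positivity
        nlinarith
      have h5 := h1.trans h2
      rw [div_le_iff₀ hc2] at h5
      linarith
    set s : ℝ := t / totalWeight w with hs
    have hs1 : 1 ≤ s := by
      rw [hs, le_div_iff₀ hW0]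
      linarith
    have hs2 : s ≤ 2 * c2 / c1 := by
      rw [hs, div_le_div_iff₀ hW0 hc1]
      calc t * c1 ≤ 2 * c2 * (P : ℝ) ^ 5 * c1 := mul_le_mul_of_nonneg_right ht2 hc1.le
        _ = 2 * c2 * (c1 * (P : ℝ) ^ 5) := by ring
        _ ≤ 2 * c2 * totalWeight w := mul_le_mul_of_nonneg_left hw1 (by positivity)
    obtain ⟨a1, a2, a3⟩ := X5_scale w s hs1 hw
    have hst : s * totalWeight w = t := by
      rw [hs, div_mul_cancel₀ _ hW0.ne']
    have hle := X5_le (fun u v => s * w u v) a1 t (by rw [a2, hst])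
    have hP3 : (P : ℝ) ^ 3 ≤ t ^ ((3 : ℝ) / 5) / c2 ^ ((3 : ℝ) / 5) := by
      rw [← Real.div_rpow ht0.le hc2.le, ← hy3]
      exact pow_le_pow_left₀ hP0.le hPy 3
    have hs0 : 0 ≤ s := by linarith
    calc hWeighted t ≤ s * mac w := hle.trans a3
      _ ≤ s * (totalWeight w / 4 + K * (P : ℝ) ^ 3) := mul_le_mul_of_nonneg_left hw3 hs0
      _ = t / 4 + s * (K * (P : ℝ) ^ 3) := by rw [← hst]; ring
      _ ≤ t / 4 + 2 * c2 / c1 * (K * (t ^ ((3 : ℝ) / 5) / c2 ^ ((3 : ℝ) / 5))) := by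
          have h1 : K * (P : ℝ) ^ 3 ≤ K * (t ^ ((3 : ℝ) / 5) / c2 ^ ((3 : ℝ) / 5)) :=
            mul_le_mul_of_nonneg_left hP3 hK.le
          have h2 : s * (K * (P : ℝ) ^ 3) ≤
              2 * c2 / c1 * (K * (t ^ ((3 : ℝ) / 5) / c2 ^ ((3 : ℝ) / 5))) :=
            mul_le_mul hs2 h1 (by positivity) (by positivity)
          linarith
      _ = t / 4 + 2 * c2 / c1 * K / c2 ^ ((3 : ℝ) / 5) * t ^ ((3 : ℝ) / 5) := by ring
      _ ≤ t / 4 + (2 * c2 / c1 * K / c2 ^ ((3 : ℝ) / 5) + c2 * 1000 ^ 5) * t ^ ((3 : ℝ) / 5) := by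
          have h1 : 0 ≤ c2 * 1000 ^ 5 * t ^ ((3 : ℝ) / 5) := by positivity
          rw [add_mul]
          linarith
  · -- small `t`
    have h1 := (X5_le (X5_w t) (X5_w_class t ht) t (X5_w_total t)).trans (X5_w_mac t ht)
    have h2 : t ≤ c2 * 1000 ^ 5 * t ^ ((3 : ℝ) / 5) := by
      have h3 : t < c2 * 1000 ^ 5 := not_le.1 hbig
      have h4 : 0 ≤ c2 * 1000 ^ 5 := by positivity
      nlinarith
    have h3 : 0 ≤ 2 * c2 / c1 * K / c2 ^ ((3 : ℝ) / 5) * t ^ ((3 : ℝ) / 5) := by positivity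
    rw [add_mul]
    linarith

end Pool.Agent.H427R2.WX
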