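import Pool.Agent.H427R2.WX.T_X1
import Pool.Agent.H427R2.WX.T_X2
import Pool.Agent.H427R2.WX.T_X3
import Pool.Agent.H427R2.WX.T_X4
import Pool.Agent.H427R2.WX.T_X5

set_option autoImplicit false

namespace Pool.Agent.H427R2.WX

theorem X5_all : S_X5 := t_X5 (t_X4 t_X1 (t_X3 t_X2))

end Pool.Agent.H427R2.WX
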