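import Mathlib
import Pool.Agent.Helper883.Dicut.HDefs

set_option autoImplicit false

/-! `h_ω(t) ≤ t/4 + C t^{3/5}`: statements. -/

namespace Pool.Agent.H427R2.WX

open Finset
open Pool.Agent.Helper883.Dicut

/-- The states `x t C` (time `t ≤ n`, particle `C`): steps are `0` or in `[1, Fm]`, at most three particles
move at each time, and the Euclidean norm of the state is constant. -/
def Motion (n N : ℕ) (x : ℕ → Fin N → ℝ) (Fm : ℝ) : Prop :=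
  (∀ t, t < n → ∀ C, x (t + 1) C - x t C = 0 ∨ (1 ≤ x (t + 1) C - x t C ∧ x (t + 1) C - x t C ≤ Fm)) ∧
  (∀ t, t < n → (univ.filter (fun C => x (t + 1) C ≠ x t C)).card ≤ 3) ∧
  (∀ t, t < n → ∑ C, x (t + 1) C ^ 2 = ∑ C, x t C ^ 2)

/-- X1: the weighted digraph of a motion. -/
def S_X1 : Prop := ∀ (n N : ℕ) (x : ℕ → Fin N → ℝ) (Fm : ℝ), 1 ≤ Fm → Motion n N x Fm →
  ∃ w : WDigraph n, ClassW n w ∧ totalWeight w ≤ (∑ C, (x n C - x 0 C) ^ 2) / 2 ∧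
    (∑ C, (x n C - x 0 C) ^ 2) / 2 - 3 * Fm ^ 2 * n / 2 ≤ totalWeight w ∧
    mac w ≤ totalWeight w / 4 + (∑ C, (x n C + x 0 C) ^ 2 + 3 * Fm ^ 2 * n) / 8

/-- X2: one round (a geodesic on the sphere). -/
def S_X2 : Prop := ∀ a b S S' : ℝ, 14 ≤ a → |b - a| ≤ a / 100 → S ^ 2 + a ^ 2 / 8 = b ^ 2 / 8 + S' ^ 2 →
  |S - a| ≤ a / 100 → |S' - a| ≤ a / 100 →
  ∃ (T : ℕ) (X : ℕ → Fin 3 → ℝ), (T : ℝ) ≤ a / 14 ∧
    X 0 0 = -S ∧ X 0 1 = -(a / 4) ∧ X 0 2 = a / 4 ∧ X T 0 = -(b / 4) ∧ X T 1 = b / 4 ∧ X T 2 = S' ∧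
    (∀ j, j < T → ∀ i, 1 ≤ X (j + 1) i - X j i ∧ X (j + 1) i - X j i ≤ 64) ∧
    (∀ j, j < T → X (j + 1) 0 ^ 2 + X (j + 1) 1 ^ 2 + X (j + 1) 2 ^ 2 = X j 0 ^ 2 + X j 1 ^ 2 + X j 2 ^ 2)

/-- start of particle `C` -/
noncomputable def st (R S : ℕ → ℝ) (C : ℕ) : ℝ :=
  if C = 0 then R 0 / 4 else if C = 1 then -(R 0 / 4) else -S (C - 2)

/-- end of particle `C` (`M` rounds) -/
noncomputable def en (M : ℕ) (R S' : ℕ → ℝ) (C : ℕ) : ℝ :=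
  if C < M then S' C else if C = M then R M / 4 else -(R M / 4)

/-- admissible data for the rounds `0, ..., M-1` -/
def Rounds (M : ℕ) (R S S' : ℕ → ℝ) : Prop := ∀ r, r < M → 14 ≤ R r ∧ |R (r + 1) - R r| ≤ R r / 100 ∧
  S r ^ 2 + R r ^ 2 / 8 = R (r + 1) ^ 2 / 8 + S' r ^ 2 ∧ |S r - R r| ≤ R r / 100 ∧ |S' r - R r| ≤ R r / 100

/-- X3: concatenation of the rounds. -/
def S_X3 : Prop := ∀ (M : ℕ) (R S S' : ℕ → ℝ), 1 ≤ M → Rounds M R S S' →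
  ∃ (n : ℕ) (x : ℕ → Fin (M + 2) → ℝ), (n : ℝ) ≤ (∑ r ∈ range M, R r) / 14 ∧ Motion n (M + 2) x 64 ∧
    (∀ C : Fin (M + 2), x 0 C = st R S C) ∧ (∀ C : Fin (M + 2), x n C = en M R S' C)

/-- X4: digraphs of total weight about `P^5`. -/
def S_X4 : Prop := ∃ c1 c2 K : ℝ, 0 < c1 ∧ 0 < c2 ∧ 0 < K ∧ ∀ P : ℕ, 1000 ≤ P →
  ∃ (n : ℕ) (w : WDigraph n), ClassW n w ∧ c1 * (P : ℝ) ^ 5 ≤ totalWeight w ∧ totalWeight w ≤ c2 * (P : ℝ) ^ 5 ∧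
    mac w ≤ totalWeight w / 4 + K * (P : ℝ) ^ 3

/-- X5: the final upper bound. -/
def S_X5 : Prop := ∃ K : ℝ, 0 < K ∧ ∀ t : ℝ, 1 ≤ t → hWeighted t ≤ t / 4 + K * t ^ ((3 : ℝ) / 5)

end Pool.Agent.H427R2.WX
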