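import Pool.Agent.H427R2.WX.St

set_option autoImplicit false

/-! Task X1 (helper338): the weighted digraph of a motion. -/

namespace Pool.Agent.H427R2.WX

open Finset
open Pool.Agent.Helper883.Dicut

theorem X1_tele1 (a : ℕ → ℝ) (v : ℕ) : ∀ n, v < n →
    ∑ u ∈ range n, (if v < u then a (u + 1) - a u else 0) = a n - a (v + 1) := by
  intro n
  induction n with
  | zero => intro h; exact absurd h (Nat.not_lt_zero _)
  | succ n ih =>
    intro h
    rw [Finset.sum_range_succ]
    rcases (Nat.lt_succ_iff.1 h).eq_or_lt with h1 | h1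
    · subst h1
      rw [if_neg (lt_irrefl _), Finset.sum_eq_zero]
      · ring
      · intro u hu
        rw [Finset.mem_range] at hu
        rw [if_neg (by omega)]
    · rw [ih h1, if_pos h1]
      ring

theorem X1_tele2 (a : ℕ → ℝ) (v : ℕ) : ∀ n, v ≤ n →
    ∑ u ∈ range n, (if u < v then a (u + 1) - a u else 0) = a v - a 0 := by
  intro n
  induction n with
  | zero =>
    intro h
    have : v = 0 := by omega
    subst this
    simp
  | succ n ih =>
    intro h
    rcases h.eq_or_lt with h1 | h1
    · subst h1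
      rw [← Finset.sum_range_sub]
      refine Finset.sum_congr rfl fun u hu => ?_
      rw [Finset.mem_range] at hu
      rw [if_pos hu]
    · rw [Finset.sum_range_succ, ih (by omega), if_neg (by omega), add_zero]

theorem X1_half (n : ℕ) (g : Fin n → Fin n → ℝ) (hg : ∀ u v, g u v = g v u) :
    2 * ∑ u, ∑ v, (if u < v then g u v else 0) = ∑ u, ∑ v, g u v - ∑ v, g v v := by
  have h1 : ∀ u v : Fin n, g u v = (if u < v then g u v else 0) + (if v < u then g u v else 0) +
      (if u = v then g u v else 0) := by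
    intro u v
    rcases lt_trichotomy u v with h | h | h
    · rw [if_pos h, if_neg h.le.not_gt, if_neg h.ne]; ring
    · rw [if_neg (by rw [h]; exact lt_irrefl _), if_neg (by rw [h]; exact lt_irrefl _), if_pos h]
      ring
    · rw [if_neg h.le.not_gt, if_pos h, if_neg h.ne']; ring
  have h2 : ∑ u, ∑ v, g u v = ∑ u, ∑ v, (if u < v then g u v else 0) +
      ∑ u, ∑ v, (if v < u then g u v else 0) + ∑ u, ∑ v, (if u = v then g u v else 0) := by
    rw [← Finset.sum_add_distrib, ← Finset.sum_add_distrib]
    refine Finset.sum_congr rfl fun u _ => ?_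
    rw [← Finset.sum_add_distrib, ← Finset.sum_add_distrib]
    exact Finset.sum_congr rfl fun v _ => h1 u v
  have h3 : ∑ u : Fin n, ∑ v, (if v < u then g u v else 0) =
      ∑ u, ∑ v, (if u < v then g u v else 0) := by
    rw [Finset.sum_comm]
    refine Finset.sum_congr rfl fun u _ => Finset.sum_congr rfl fun v _ => ?_
    rw [hg]
  have h4 : ∑ u : Fin n, ∑ v, (if u = v then g u v else 0) = ∑ v, g v v := by
    refine Finset.sum_congr rfl fun u _ => ?_
    rw [Finset.sum_ite_eq Finset.univ u (fun v => g u v), if_pos (Finset.mem_univ _)]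
  rw [h2, h3, h4]
  ring

theorem X1_sq (n N : ℕ) (f : Fin n → Fin N → ℝ) (s : Fin n → ℝ) :
    ∑ u, ∑ v, s u * s v * ∑ C, f u C * f v C = ∑ C, (∑ v, s v * f v C) ^ 2 := by
  have h1 : ∀ C, (∑ v, s v * f v C) ^ 2 = ∑ u, ∑ v, s u * s v * (f u C * f v C) := by
    intro C
    rw [sq, Finset.sum_mul_sum]
    refine Finset.sum_congr rfl fun u _ => Finset.sum_congr rfl fun v _ => ?_
    ring
  rw [Finset.sum_congr rfl (fun C _ => h1 C)]
  symm
  rw [Finset.sum_comm]
  refine Finset.sum_congr rfl fun u _ => ?_
  rw [Finset.sum_comm]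
  refine Finset.sum_congr rfl fun v _ => ?_
  rw [Finset.mul_sum]

theorem X1_cut (n : ℕ) (w : WDigraph n) (X : Finset (Fin n)) (s : Fin n → ℝ)
    (hs : ∀ v, s v = if v ∈ X then 1 else -1) :
    4 * cutWeight w X = totalWeight w + ∑ v, s v * (∑ u, w v u - ∑ u, w u v) -
      ∑ u, ∑ v, s u * s v * w u v := by
  have h1 : 4 * cutWeight w X = ∑ u, ∑ v, (1 + s u) * (1 - s v) * w u v := by
    unfold cutWeight
    have h2 : ∀ u, ∑ v ∈ Xᶜ, w u v = ∑ v, (1 - s v) / 2 * w u v := by
      intro u
      rw [← Finset.sum_subset (Finset.subset_univ Xᶜ)]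
      · refine Finset.sum_congr rfl fun v hv => ?_
        rw [Finset.mem_compl] at hv
        rw [hs, if_neg hv]
        ring
      · intro v _ hv
        rw [Finset.mem_compl, not_not] at hv
        rw [hs, if_pos hv]
        ring
    have h3 : ∑ u ∈ X, ∑ v ∈ Xᶜ, w u v = ∑ u, (1 + s u) / 2 * ∑ v ∈ Xᶜ, w u v := by
      rw [← Finset.sum_subset (Finset.subset_univ X)]
      · refine Finset.sum_congr rfl fun u hu => ?_
        rw [hs, if_pos hu]
        ring
      · intro u _ hu
        rw [hs, if_neg hu]
        ring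
    rw [h3, Finset.mul_sum]
    refine Finset.sum_congr rfl fun u _ => ?_
    rw [h2, Finset.mul_sum, Finset.mul_sum]
    refine Finset.sum_congr rfl fun v _ => ?_
    ring
  have h4 : ∑ v, s v * (∑ u, w v u - ∑ u, w u v) = ∑ u, ∑ v, (s u - s v) * w u v := by
    have h5 : ∀ v, s v * (∑ u, w v u - ∑ u, w u v) = ∑ u, s v * w v u - ∑ u, s v * w u v := by
      intro v
      rw [mul_sub, Finset.mul_sum, Finset.mul_sum]
    rw [Finset.sum_congr rfl (fun v _ => h5 v), Finset.sum_sub_distrib,
      Finset.sum_comm (f := fun v u => s v * w u v), ← Finset.sum_sub_distrib]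
    refine Finset.sum_congr rfl fun u _ => ?_
    rw [← Finset.sum_sub_distrib]
    refine Finset.sum_congr rfl fun v _ => ?_
    ring
  rw [h1, h4]
  unfold totalWeight
  rw [← Finset.sum_add_distrib, ← Finset.sum_sub_distrib]
  refine Finset.sum_congr rfl fun u _ => ?_
  rw [← Finset.sum_add_distrib, ← Finset.sum_sub_distrib]
  refine Finset.sum_congr rfl fun v _ => ?_
  ring

theorem t_X1 : S_X1 := by
  classical
  intro n N x Fm hFm ⟨hstep, hcard, hnorm⟩
  obtain ⟨f, hf⟩ : ∃ f : Fin n → Fin N → ℝ, ∀ v C, f v C = x (v + 1) C - x v C :=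
    ⟨fun v C => x (v + 1) C - x v C, fun _ _ => rfl⟩
  have hf01 : ∀ v C, f v C = 0 ∨ (1 ≤ f v C ∧ f v C ≤ Fm) := by
    intro v C
    rw [hf]
    exact hstep v v.2 C
  have hf0 : ∀ v C, 0 ≤ f v C := by
    intro v C
    rcases hf01 v C with h | h
    · rw [h]
    · linarith [h.1]
  obtain ⟨K, hK⟩ : ∃ K : Fin n → Fin n → ℝ, ∀ u v, K u v = ∑ C, f u C * f v C :=
    ⟨fun u v => ∑ C, f u C * f v C, fun _ _ => rfl⟩
  have hKs : ∀ u v, K u v = K v u := by
    intro u v
    rw [hK, hK]
    exact Finset.sum_congr rfl fun C _ => mul_comm _ _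
  obtain ⟨w, hw⟩ : ∃ w : WDigraph n, ∀ u v, w u v = if u < v then K u v else 0 :=
    ⟨fun u v => if u < v then K u v else 0, fun _ _ => rfl⟩
  have hK01 : ∀ u v, K u v = 0 ∨ 1 ≤ K u v := by
    intro u v
    rw [hK]
    by_cases h : ∀ C, f u C * f v C = 0
    · left
      exact Finset.sum_eq_zero fun C _ => h C
    · right
      push Not at h
      obtain ⟨C, hC⟩ := h
      have h1 : 1 ≤ f u C := by
        rcases hf01 u C with h | h
        · rw [h, zero_mul] at hC; exact absurd rfl hC
        · exact h.1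
      have h2 : 1 ≤ f v C := by
        rcases hf01 v C with h | h
        · rw [h, mul_zero] at hC; exact absurd rfl hC
        · exact h.1
      have h3 : f u C * f v C ≤ ∑ C, f u C * f v C :=
        Finset.single_le_sum (f := fun C => f u C * f v C)
          (fun C _ => mul_nonneg (hf0 u C) (hf0 v C)) (Finset.mem_univ C)
      exact (one_le_mul_of_one_le_of_one_le h1 h2).trans h3
  -- diagonal terms
  have hKd0 : ∀ v, 0 ≤ K v v := by
    intro v
    rw [hK]
    exact Finset.sum_nonneg fun C _ => mul_self_nonneg _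
  have hKd : ∀ v, K v v ≤ 3 * Fm ^ 2 := by
    intro v
    rw [hK]
    have h1 : ∑ C, f v C * f v C =
        ∑ C ∈ univ.filter (fun C => x (v + 1) C ≠ x v C), f v C * f v C := by
      rw [Finset.sum_filter_of_ne]
      intro C _ hC h
      apply hC
      rw [hf, h, sub_self, zero_mul]
    rw [h1]
    have h2 : ∑ C ∈ univ.filter (fun C => x (v + 1) C ≠ x v C), f v C * f v C ≤
        ((univ.filter (fun C => x (v + 1) C ≠ x v C)).card : ℝ) * Fm ^ 2 := by
      rw [← nsmul_eq_mul]
      refine Finset.sum_le_card_nsmul _ _ _ fun C _ => ?_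
      have h3 : f v C ≤ Fm := by
        rcases hf01 v C with h | h
        · rw [h]; linarith
        · exact h.2
      rw [sq]
      exact mul_le_mul h3 h3 (hf0 v C) (by linarith)
    refine h2.trans ?_
    have h4 : ((univ.filter (fun C => x (v + 1) C ≠ x v C)).card : ℝ) ≤ 3 := by
      exact_mod_cast hcard v v.2
    gcongr
  obtain ⟨D, hD⟩ : ∃ D : ℝ, D = ∑ v, K v v := ⟨_, rfl⟩
  have hD0 : 0 ≤ D := by rw [hD]; exact Finset.sum_nonneg fun v _ => hKd0 v
  have hDn : D ≤ 3 * Fm ^ 2 * n := by
    rw [hD]
    calc ∑ v, K v v ≤ ∑ _v : Fin n, 3 * Fm ^ 2 := Finset.sum_le_sum fun v _ => hKd v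
      _ = 3 * Fm ^ 2 * n := by
        rw [Finset.sum_const, Finset.card_univ, Fintype.card_fin, nsmul_eq_mul]; ring
  -- total weight
  have hfsum : ∀ C, ∑ v, f v C = x n C - x 0 C := by
    intro C
    rw [← Finset.sum_range_sub (fun t => x t C) n, ← Fin.sum_univ_eq_sum_range]
    exact Finset.sum_congr rfl fun v _ => hf v C
  have htot : 2 * totalWeight w = ∑ C, (x n C - x 0 C) ^ 2 - D := by
    unfold totalWeight
    have h1 := X1_half n K hKs
    have h2 : ∑ u, ∑ v, w u v = ∑ u, ∑ v, (if u < v then K u v else 0) :=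
      Finset.sum_congr rfl fun u _ => Finset.sum_congr rfl fun v _ => hw u v
    have h3 := X1_sq n N f (fun _ => 1)
    simp only [one_mul] at h3
    have h4 : ∑ u, ∑ v, K u v = ∑ C, (x n C - x 0 C) ^ 2 := by
      rw [Finset.sum_congr rfl (fun u _ => Finset.sum_congr rfl (fun v _ => hK u v)), h3]
      exact Finset.sum_congr rfl fun C _ => by rw [hfsum]
    rw [h2, h1, h4, hD]
  refine ⟨w, ⟨?_, ?_⟩, ?_, ?_, ?_⟩
  · intro v hv
    have h1 : ∀ a b : Fin n, Relation.TransGen (fun a b => w a b ≠ 0) a b → a < b := by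
      intro a b hab
      induction hab with
      | single h =>
        rw [hw] at h
        by_contra hn
        rw [if_neg hn] at h
        exact h rfl
      | tail _ h ih =>
        refine ih.trans ?_
        rw [hw] at h
        by_contra hn
        rw [if_neg hn] at h
        exact h rfl
    exact lt_irrefl v (h1 v v hv)
  · intro u v
    rw [hw]
    split_ifs
    · exact hK01 u v
    · left; rfl
  · linarith
  · linarith
  · unfold mac
    refine ciSup_le fun X => ?_
    obtain ⟨s, hs⟩ : ∃ s : Fin n → ℝ, ∀ v, s v = if v ∈ X then 1 else -1 :=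
      ⟨fun v => if v ∈ X then 1 else -1, fun _ => rfl⟩
    have hs2 : ∀ v, s v * s v = 1 := by
      intro v
      rw [hs]
      split_ifs <;> norm_num
    have h1 := X1_cut n w X s hs
    -- the third term
    have h3 : 2 * ∑ u, ∑ v, s u * s v * w u v = ∑ C, (∑ v, s v * f v C) ^ 2 - D := by
      have h4 := X1_half n (fun u v => s u * s v * K u v) (fun u v => by
        rw [hKs u v]; ring)
      have h5 : ∑ u, ∑ v, s u * s v * w u v =
          ∑ u, ∑ v, (if u < v then s u * s v * K u v else 0) := by
        refine Finset.sum_congr rfl fun u _ => Finset.sum_congr rfl fun v _ => ?_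
        rw [hw]
        split_ifs
        · rfl
        · rw [mul_zero]
      have h6 : ∑ v, s v * s v * K v v = D := by
        rw [hD]
        exact Finset.sum_congr rfl fun v _ => by rw [hs2, one_mul]
      rw [h5, h4, h6, ← X1_sq]
      congr 1
      refine Finset.sum_congr rfl fun u _ => Finset.sum_congr rfl fun v _ => ?_
      rw [hK]
    -- the second term
    have hb : ∀ v : Fin n, ∑ u, w v u - ∑ u, w u v = ∑ C, f v C * (x n C + x 0 C) := by
      intro v
      have e1 : ∑ u, w v u = ∑ C, f v C * (x n C - x (v + 1) C) := by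
        have e2 : ∀ u, w v u = ∑ C, f v C * (if v < u then f u C else 0) := by
          intro u
          rw [hw]
          split_ifs
          · rw [hK]
          · simp
        rw [Finset.sum_congr rfl (fun u _ => e2 u), Finset.sum_comm]
        refine Finset.sum_congr rfl fun C _ => ?_
        rw [← Finset.mul_sum]
        congr 1
        rw [← X1_tele1 (fun t => x t C) v n v.2, ← Fin.sum_univ_eq_sum_range
          (fun u => if (v : ℕ) < u then x (u + 1) C - x u C else 0)]
        refine Finset.sum_congr rfl fun u _ => ?_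
        rw [hf]
        rfl
      have e3 : ∑ u, w u v = ∑ C, f v C * (x v C - x 0 C) := by
        have e2 : ∀ u, w u v = ∑ C, f v C * (if u < v then f u C else 0) := by
          intro u
          rw [hw]
          split_ifs
          · rw [hKs, hK]
          · simp
        rw [Finset.sum_congr rfl (fun u _ => e2 u), Finset.sum_comm]
        refine Finset.sum_congr rfl fun C _ => ?_
        rw [← Finset.mul_sum]
        congr 1
        rw [← X1_tele2 (fun t => x t C) v n v.2.le, ← Fin.sum_univ_eq_sum_range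
          (fun u => if u < (v : ℕ) then x (u + 1) C - x u C else 0)]
        refine Finset.sum_congr rfl fun u _ => ?_
        rw [hf]
        rfl
      have e4 : ∑ C, f v C * (x (v + 1) C + x v C) = 0 := by
        have e5 : ∀ C, f v C * (x (v + 1) C + x v C) = x (v + 1) C ^ 2 - x v C ^ 2 := by
          intro C
          rw [hf]; ring
        rw [Finset.sum_congr rfl (fun C _ => e5 C), Finset.sum_sub_distrib, hnorm v v.2, sub_self]
      rw [e1, e3, ← Finset.sum_sub_distrib]
      have e6 : ∑ C, f v C * (x n C + x 0 C) = ∑ C, f v C * (x n C + x 0 C) -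
          ∑ C, f v C * (x (v + 1) C + x v C) := by rw [e4, sub_zero]
      rw [e6, ← Finset.sum_sub_distrib]
      refine Finset.sum_congr rfl fun C _ => ?_
      ring
    have h7 : ∑ v, s v * (∑ u, w v u - ∑ u, w u v) =
        ∑ C, (x n C + x 0 C) * ∑ v, s v * f v C := by
      rw [Finset.sum_congr rfl (fun v _ => by rw [hb v])]
      have e1 : ∀ v, s v * ∑ C, f v C * (x n C + x 0 C) =
          ∑ C, (x n C + x 0 C) * (s v * f v C) := by
        intro v
        rw [Finset.mul_sum]
        exact Finset.sum_congr rfl fun C _ => by ring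
      rw [Finset.sum_congr rfl (fun v _ => e1 v), Finset.sum_comm]
      exact Finset.sum_congr rfl fun C _ => by rw [Finset.mul_sum]
    have h8 : 2 * ∑ C, (x n C + x 0 C) * ∑ v, s v * f v C ≤
        ∑ C, (x n C + x 0 C) ^ 2 + ∑ C, (∑ v, s v * f v C) ^ 2 := by
      rw [Finset.mul_sum, ← Finset.sum_add_distrib]
      refine Finset.sum_le_sum fun C _ => ?_
      nlinarith [sq_nonneg ((x n C + x 0 C) - ∑ v, s v * f v C)]
    rw [h7] at h1
    linarith

end Pool.Agent.H427R2.WX
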